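import Mathlib

set_option autoImplicit false

/-!
# Retracts of free Burnside groups whose exponent is not a prime power
-/

namespace Pool.Agent.Y84.BR

universe u v

/-- the free Burnside group -/
abbrev FB (X : Type u) (n : ℕ) : Type u :=
  FreeGroup X ⧸ Subgroup.normalClosure (Set.range fun w : FreeGroup X => w ^ n)

/-- homomorphisms to groups of exponent `n` -/
def lift {X : Type u} {n : ℕ} {G : Type v} [Group G] (hG : ∀ g : G, g ^ n = 1) (f : X → G) :
    FB X n →* G :=
  QuotientGroup.lift _ (FreeGroup.lift f) (by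
    intro w hw
    have hle : Subgroup.normalClosure (Set.range fun w : FreeGroup X => w ^ n) ≤
        (FreeGroup.lift f).ker := by
      apply Subgroup.normalClosure_le_normal
      rintro _ ⟨w, rfl⟩
      show (FreeGroup.lift f) (w ^ n) = 1
      rw [map_pow, hG]
    exact hle hw)

/-- the generators -/
def gen {X : Type u} (n : ℕ) (x : X) : FB X n := (FreeGroup.of x : FreeGroup X)

theorem lift_gen {X : Type u} {n : ℕ} {G : Type v} [Group G] (hG : ∀ g : G, g ^ n = 1) (f : X → G)
    (x : X) : lift hG f (gen n x) = f x := by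
  show (FreeGroup.lift f) (FreeGroup.of x) = f x
  rw [FreeGroup.lift_apply_of]

theorem pow_eq_one {X : Type u} {n : ℕ} (g : FB X n) : g ^ n = 1 := by
  obtain ⟨w, rfl⟩ := QuotientGroup.mk_surjective g
  rw [← QuotientGroup.mk_pow]
  exact (QuotientGroup.eq_one_iff _).2 (Subgroup.subset_normalClosure ⟨w, rfl⟩)

theorem zmod_pow {n : ℕ} (z : Multiplicative (ZMod n)) : z ^ n = 1 := by
  apply Multiplicative.toAdd.injective
  rw [toAdd_pow, toAdd_one, nsmul_eq_mul, ZMod.natCast_self, zero_mul]

/-- the map to the cyclic group -/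
def phi (X : Type u) (n : ℕ) : FB X n →* Multiplicative (ZMod n) :=
  lift zmod_pow (fun _ => Multiplicative.ofAdd 1)

/-- the map from the cyclic group -/
def psi {X : Type u} (n : ℕ) [NeZero n] (x : X) : Multiplicative (ZMod n) →* FB X n :=
  (ZMod.lift n ⟨(zmultiplesHom (Additive (FB X n))) (Additive.ofMul (gen n x)), by
    show ((n : ℤ) • (Additive.ofMul (gen n x) : Additive (FB X n))) = 0
    rw [natCast_zsmul, ← ofMul_pow, pow_eq_one]
    rfl⟩).toMultiplicativeLeft

theorem psi_one {X : Type u} (n : ℕ) [NeZero n] (x : X) :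
    psi n x (Multiplicative.ofAdd 1) = gen n x := by
  have h : (ZMod.lift n ⟨(zmultiplesHom (Additive (FB X n))) (Additive.ofMul (gen n x)), by
    show ((n : ℤ) • (Additive.ofMul (gen n x) : Additive (FB X n))) = 0
    rw [natCast_zsmul, ← ofMul_pow, pow_eq_one]
    rfl⟩) ((1 : ℤ) : ZMod n) = Additive.ofMul (gen n x) := by
    rw [ZMod.lift_coe]
    show ((1 : ℤ) • (Additive.ofMul (gen n x) : Additive (FB X n))) = _
    rw [one_zsmul]
  rw [Int.cast_one] at h
  exact congrArg Additive.toMul h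

theorem phi_psi {X : Type u} (n : ℕ) [NeZero n] (x : X) (z : Multiplicative (ZMod n)) :
    phi X n (psi n x z) = z := by
  have h1 : phi X n (psi n x (Multiplicative.ofAdd 1)) = Multiplicative.ofAdd 1 := by
    rw [psi_one]
    exact lift_gen _ _ _
  obtain ⟨k, hk⟩ : ∃ k : ℕ, z = Multiplicative.ofAdd (1 : ZMod n) ^ k := by
    refine ⟨(Multiplicative.toAdd z).val, ?_⟩
    apply Multiplicative.toAdd.injective
    rw [toAdd_pow, toAdd_ofAdd, nsmul_eq_mul, mul_one, ZMod.natCast_zmod_val]
  rw [hk, map_pow, map_pow, h1]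

theorem not_free {X : Type u} {n : ℕ} (hn : 1 < n) (H : Subgroup (FB X n)) {a : ℕ} (ha : 1 < a)
    (han : a < n) (e : H ≃* Multiplicative (ZMod a)) (Y : Type v) (f : H ≃* FB Y n) : False := by
  have : NeZero a := ⟨by omega⟩
  have : NeZero n := ⟨by omega⟩
  have hcard : Nat.card H = a := by
    rw [Nat.card_congr e.toEquiv]
    exact Nat.card_zmod a
  have hfin : Finite H := Nat.finite_of_card_ne_zero (by rw [hcard]; omega)
  rcases isEmpty_or_nonempty Y with hY | ⟨⟨y⟩⟩
  · have hs : Subsingleton (FB Y n) := by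
      refine ⟨fun p q => ?_⟩
      obtain ⟨p, rfl⟩ := QuotientGroup.mk_surjective p
      obtain ⟨q, rfl⟩ := QuotientGroup.mk_surjective q
      rw [Subsingleton.elim p q]
    have hs' : Subsingleton H := f.toEquiv.subsingleton
    rw [Nat.card_eq_one_iff_unique.2 ⟨hs', ⟨1⟩⟩] at hcard
    omega
  · have hsurj : Function.Surjective (fun h : H => phi Y n (f h)) := by
      intro z
      refine ⟨f.symm (psi n y z), ?_⟩
      show phi Y n (f (f.symm (psi n y z))) = z
      rw [MulEquiv.apply_symm_apply, phi_psi]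
    have h1 := Nat.card_le_card_of_surjective _ hsurj
    have h2 : Nat.card (Multiplicative (ZMod n)) = n := Nat.card_zmod n
    rw [h2, hcard] at h1
    omega

theorem main {a b : ℕ} (ha : 1 < a) (hb : 1 < b) (hab : a.Coprime b) (X : Type u) [Nonempty X] :
    ∃ H : Subgroup (FB X (a * b)), (∃ ρ : FB X (a * b) →* H, ∀ h : H, ρ h = h) ∧
      Nonempty (H ≃* Multiplicative (ZMod a)) ∧
      ∀ Y : Type v, IsEmpty (H ≃* FB Y (a * b)) := by
  have : NeZero a := ⟨by omega⟩
  have : NeZero (a * b) := ⟨Nat.mul_ne_zero (by omega) (by omega)⟩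
  obtain ⟨x⟩ := ‹Nonempty X›
  -- the idempotent
  obtain ⟨u, hu1, hu2⟩ := Nat.chineseRemainder hab 1 0
  have hb_u : b ∣ u := (Nat.modEq_zero_iff_dvd).1 hu2
  -- the maps between the cyclic groups
  let π : Multiplicative (ZMod (a * b)) →* Multiplicative (ZMod a) :=
    AddMonoidHom.toMultiplicative (ZMod.castHom (dvd_mul_right a b) (ZMod a)).toAddMonoidHom
  let L : ZMod a →+ ZMod (a * b) :=
    ZMod.lift a ⟨(zmultiplesHom (ZMod (a * b))) (u : ZMod (a * b)), by
      show ((a : ℤ) • (u : ZMod (a * b))) = 0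
      rw [natCast_zsmul, nsmul_eq_mul, ← Nat.cast_mul, ZMod.natCast_eq_zero_iff]
      exact Nat.mul_dvd_mul_left a hb_u⟩
  have hL : ∀ k : ℤ, L (k : ZMod a) = k • (u : ZMod (a * b)) := fun k => ZMod.lift_coe _ _ _
  let ι : Multiplicative (ZMod a) →* Multiplicative (ZMod (a * b)) := AddMonoidHom.toMultiplicative L
  have hπι : ∀ z, π (ι z) = z := by
    intro z
    apply Multiplicative.toAdd.injective
    show ZMod.castHom (dvd_mul_right a b) (ZMod a) (L (Multiplicative.toAdd z)) =
      Multiplicative.toAdd z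
    obtain ⟨k, hk⟩ := ZMod.intCast_surjective (Multiplicative.toAdd z)
    rw [← hk, hL]
    rw [map_zsmul, map_natCast, zsmul_eq_mul]
    have h1 : ((u : ℕ) : ZMod a) = 1 := by
      have h2 := (ZMod.natCast_eq_natCast_iff u 1 a).2 hu1
      rw [h2, Nat.cast_one]
    rw [h1, mul_one]
  -- the embedding of `ℤ/a`
  let j : Multiplicative (ZMod a) →* FB X (a * b) := (psi (a * b) x).comp ι
  let r : FB X (a * b) →* Multiplicative (ZMod a) := π.comp (phi X (a * b))
  have hrj : ∀ z, r (j z) = z := by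
    intro z
    show π (phi X (a * b) (psi (a * b) x (ι z))) = z
    rw [phi_psi, hπι]
  have hjinj : Function.Injective j := fun z z' h => by rw [← hrj z, h, hrj]
  refine ⟨j.range, ⟨j.rangeRestrict.comp r, ?_⟩, ⟨(MonoidHom.ofInjective hjinj).symm⟩, ?_⟩
  · rintro ⟨_, z, rfl⟩
    apply Subtype.ext
    show j (r (j z)) = j z
    rw [hrj]
  · intro Y
    refine ⟨fun f => ?_⟩
    have h1 : 1 < a * b := by nlinarith
    have h2 : a < a * b := by nlinarith
    exact not_free h1 j.range ha h2 (MonoidHom.ofInjective hjinj).symm Y f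

end Pool.Agent.Y84.BR
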